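import Mathlib

/-!
Every productively weakly Lindelof space is weakly Scheepers (hence weakly Menger).
-/

namespace Pool.Agent.Results.MP_6a28f0_gt.ProductivelyWL

open Set Filter Topology

universe u

/-- `𝒰` is an open cover of `X`. -/
def OpenCover {X : Type u} [TopologicalSpace X] (𝒰 : Set (Set X)) : Prop :=
  (∀ U ∈ 𝒰, IsOpen U) ∧ ⋃₀ 𝒰 = Set.univ

/-- weakly Lindelof spaces -/
def WeaklyLindelof (X : Type u) [TopologicalSpace X] : Prop :=
  ∀ 𝒰 : Set (Set X), OpenCover 𝒰 → ∃ 𝒱 ⊆ 𝒰, 𝒱.Countable ∧ Dense (⋃₀ 𝒱)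

/-- productively weakly Lindelof spaces -/
def ProductivelyWeaklyLindelof (X : Type u) [TopologicalSpace X] : Prop :=
  ∀ (Y : Type u) [TopologicalSpace Y], WeaklyLindelof Y → WeaklyLindelof (X × Y)

/-- `𝒱` is a selection for the sequence `𝒰`: each `𝒱 n` is a finite subset of `𝒰 n`. -/
def IsSelection {X : Type u} (𝒰 𝒱 : ℕ → Set (Set X)) : Prop :=
  ∀ n, 𝒱 n ⊆ 𝒰 n ∧ (𝒱 n).Finite

/-- weakly Menger spaces -/
def WeaklyMenger (X : Type u) [TopologicalSpace X] : Prop :=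
  ∀ 𝒰 : ℕ → Set (Set X), (∀ n, OpenCover (𝒰 n)) → ∃ 𝒱, IsSelection 𝒰 𝒱 ∧
    Dense (⋃ n, ⋃₀ 𝒱 n)

/-- weakly Scheepers spaces -/
def WeaklyScheepers (X : Type u) [TopologicalSpace X] : Prop :=
  ∀ 𝒰 : ℕ → Set (Set X), (∀ n, OpenCover (𝒰 n)) → ∃ 𝒱, IsSelection 𝒰 𝒱 ∧
    ∀ ℱ : Set (Set X), ℱ.Finite → (∀ U ∈ ℱ, IsOpen U ∧ U.Nonempty) →
      {n | ∀ U ∈ ℱ, (U ∩ ⋃₀ 𝒱 n).Nonempty}.Infinite

section Construction

variable {X : Type u} (𝒰 : ℕ → Set (Set X))

/-- all finite selections -/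
abbrev Sel : Type u := (n : ℕ) → Finset (𝒰 n)

/-- selections that do not extend `g` at any coordinate -/
def avoid (g : Sel 𝒰) : Set (Sel 𝒰) := {a | ∀ n, ¬ g n ⊆ a n}

/-- ultrafilters on the set of selections containing some set `avoid g` -/
abbrev Lim : Type u := {l : Ultrafilter (Sel 𝒰) // ∃ g, avoid 𝒰 g ∈ l}

/-- the points of the test space -/
inductive Pt : Type u
  | iso : Sel 𝒰 → Pt
  | q : ℕ → Pt
  | lim : Lim 𝒰 → Pt

open Pt

instance : TopologicalSpace (Pt 𝒰) where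
  IsOpen V := (∀ n, q n ∈ V → ∃ 𝒢 : Finset (𝒰 n), ∀ a : Sel 𝒰, 𝒢 ⊆ a n → iso a ∈ V) ∧
    (∀ l : Lim 𝒰, lim l ∈ V → {a | iso a ∈ V} ∈ l.1)
  isOpen_univ := ⟨fun _ _ => ⟨∅, fun _ _ => trivial⟩, fun _ _ => Filter.univ_mem⟩
  isOpen_inter := by
    classical
    rintro s t ⟨hs1, hs2⟩ ⟨ht1, ht2⟩
    refine ⟨fun n hn => ?_, fun l hl => ?_⟩
    · obtain ⟨G1, h1⟩ := hs1 n hn.1
      obtain ⟨G2, h2⟩ := ht1 n hn.2
      exact ⟨G1 ∪ G2, fun a ha => ⟨h1 a (Finset.union_subset_left ha),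
        h2 a (Finset.union_subset_right ha)⟩⟩
    · exact Filter.inter_mem (hs2 l hl.1) (ht2 l hl.2)
  isOpen_sUnion := by
    rintro 𝒮 h
    refine ⟨fun n hn => ?_, fun l hl => ?_⟩
    · obtain ⟨s, hs, hns⟩ := hn
      obtain ⟨G, hG⟩ := (h s hs).1 n hns
      exact ⟨G, fun a ha => ⟨s, hs, hG a ha⟩⟩
    · obtain ⟨s, hs, hls⟩ := hl
      exact Filter.mem_of_superset ((h s hs).2 l hls) (fun a ha => ⟨s, hs, ha⟩)

theorem pt_open_iff (V : Set (Pt 𝒰)) : IsOpen V ↔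
    (∀ n, q n ∈ V → ∃ 𝒢 : Finset (𝒰 n), ∀ a : Sel 𝒰, 𝒢 ⊆ a n → iso a ∈ V) ∧
    (∀ l : Lim 𝒰, lim l ∈ V → {a | iso a ∈ V} ∈ l.1) := Iff.rfl

theorem iso_open (S : Set (Sel 𝒰)) : IsOpen (iso '' S) := by
  rw [pt_open_iff]
  refine ⟨fun n hn => ?_, fun l hl => ?_⟩
  · obtain ⟨a, _, ha⟩ := hn
    exact absurd ha (by simp)
  · obtain ⟨a, _, ha⟩ := hl
    exact absurd ha (by simp)

theorem iso_dense {V : Set (Pt 𝒰)} (hV : IsOpen V) (hne : V.Nonempty) : ∃ a, iso a ∈ V := by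
  classical
  obtain ⟨p, hp⟩ := hne
  cases p with
  | iso a => exact ⟨a, hp⟩
  | q n =>
    obtain ⟨G, hG⟩ := hV.1 n hp
    refine ⟨Function.update (fun _ => ∅) n G, hG _ ?_⟩
    simp
  | lim l =>
    have := hV.2 l hp
    obtain ⟨a, ha⟩ := l.1.nonempty_of_mem this
    exact ⟨a, ha⟩

theorem pt_wl : WeaklyLindelof (Pt 𝒰) := by
  classical
  intro 𝒱 h𝒱
  obtain ⟨hop, hcov⟩ := h𝒱
  have h1 : ∀ n, ∃ V ∈ 𝒱, q n ∈ V := by
    intro n
    have : (q n : Pt 𝒰) ∈ ⋃₀ 𝒱 := by rw [hcov]; trivial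
    exact this
  choose V hV hqV using h1
  have h2 : ∀ n, ∃ G : Finset (𝒰 n), ∀ a : Sel 𝒰, G ⊆ a n → iso a ∈ V n :=
    fun n => (hop _ (hV n)).1 n (hqV n)
  choose g hg using h2
  have hcomp : IsCompact {l : Ultrafilter (Sel 𝒰) | avoid 𝒰 g ∈ l} :=
    (ultrafilter_isClosed_basic _).isCompact
  obtain ⟨s, hs⟩ := hcomp.elim_finite_subcover
    (fun W : 𝒱 => {l : Ultrafilter (Sel 𝒰) | {a | iso a ∈ W.1} ∈ l})
    (fun W => ultrafilter_isOpen_basic _) (by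
      intro l hl
      have : (lim ⟨l, g, hl⟩ : Pt 𝒰) ∈ ⋃₀ 𝒱 := by rw [hcov]; trivial
      obtain ⟨W, hW, hlW⟩ := this
      exact mem_iUnion.2 ⟨⟨W, hW⟩, (hop W hW).2 _ hlW⟩)
  refine ⟨Set.range V ∪ Subtype.val '' (↑s : Set 𝒱), ?_, ?_, ?_⟩
  · rintro W (⟨n, rfl⟩ | ⟨W, _, rfl⟩)
    · exact hV n
    · exact W.2
  · exact (countable_range _).union (s.countable_toSet.image _)
  · rw [dense_iff_inter_open]
    intro O hO hne
    obtain ⟨a, ha⟩ := iso_dense 𝒰 hO hne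
    refine ⟨iso a, ha, ?_⟩
    by_cases hav : a ∈ avoid 𝒰 g
    · have : (pure a : Ultrafilter (Sel 𝒰)) ∈
          {l : Ultrafilter (Sel 𝒰) | avoid 𝒰 g ∈ l} := by
        simpa using hav
      have h3 := hs this
      simp only [mem_iUnion, exists_prop] at h3
      obtain ⟨W, hWs, hW⟩ := h3
      refine ⟨W.1, Or.inr ⟨W, hWs, rfl⟩, ?_⟩
      simpa using hW
    · simp only [avoid, mem_setOf_eq, not_forall, not_not] at hav
      obtain ⟨n, hn⟩ := hav
      exact ⟨V n, Or.inl ⟨n, rfl⟩, hg n a hn⟩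

end Construction

open Pt

theorem wm_of_productively (X : Type u) [TopologicalSpace X]
    (hX : ProductivelyWeaklyLindelof X) : WeaklyMenger X := by
  classical
  by_contra hnot
  unfold WeaklyMenger at hnot
  push Not at hnot
  obtain ⟨𝒰, hcov, hsel⟩ := hnot
  -- the union of a selection
  let Wa : Sel 𝒰 → Set X := fun a => ⋃ n, ⋃ U ∈ a n, (U : Set X)
  have hWa : ∀ a : Sel 𝒰, ¬ Dense (Wa a) := by
    intro a
    have := hsel (fun n => Subtype.val '' (↑(a n) : Set (𝒰 n))) (by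
      intro n
      refine ⟨?_, (a n).finite_toSet.image _⟩
      rintro _ ⟨U, _, rfl⟩
      exact U.2)
    convert this using 2
    ext x
    simp only [Wa, mem_iUnion, mem_sUnion, mem_image, Finset.mem_coe, exists_prop]
    constructor
    · rintro ⟨n, U, hU, hx⟩
      exact ⟨n, U, ⟨U, hU, rfl⟩, hx⟩
    · rintro ⟨n, _, ⟨U, hU, rfl⟩, hx⟩
      exact ⟨n, U, hU, hx⟩
  have hinf : ∀ (n : ℕ) (G : Finset (𝒰 n)), ∃ U, U ∉ G := by
    intro n G
    by_contra hcon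
    push Not at hcon
    apply hWa (Function.update (fun _ => ∅) n G)
    have : Wa (Function.update (fun _ => ∅) n G) = univ := by
      rw [eq_univ_iff_forall]
      intro x
      have hx : x ∈ ⋃₀ (𝒰 n) := by rw [(hcov n).2]; trivial
      obtain ⟨U, hU, hxU⟩ := hx
      simp only [Wa, mem_iUnion, exists_prop]
      refine ⟨n, ⟨U, hU⟩, ?_, hxU⟩
      rw [Function.update_self]
      exact hcon _
    rw [this]
    exact dense_univ
  have hYX := hX (Pt 𝒰) (pt_wl 𝒰)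
  choose gl hgl using fun l : Lim 𝒰 => l.2
  let N : (n : ℕ) → 𝒰 n → Set (Pt 𝒰) := fun n U => insert (q n) (iso '' {a | U ∈ a n})
  let M : Lim 𝒰 → Set (Pt 𝒰) := fun l => insert (lim l) (iso '' (avoid 𝒰 (gl l)))
  have hN : ∀ n U, IsOpen (N n U) := by
    intro n U
    rw [pt_open_iff]
    refine ⟨fun m hm => ?_, fun l hl => ?_⟩
    · rcases hm with hm | ⟨a, _, ha⟩
      · have hmn : m = n := by simpa using hm
        subst hmn
        exact ⟨{U}, fun a ha => Or.inr ⟨a, by simpa using ha, rfl⟩⟩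
      · exact absurd ha (by simp)
    · rcases hl with hl | ⟨a, _, ha⟩
      · exact absurd hl (by simp)
      · exact absurd ha (by simp)
  have hM : ∀ l, IsOpen (M l) := by
    intro l
    rw [pt_open_iff]
    refine ⟨fun m hm => ?_, fun l' hl => ?_⟩
    · rcases hm with hm | ⟨a, _, ha⟩
      · exact absurd hm (by simp)
      · exact absurd ha (by simp)
    · rcases hl with hl | ⟨a, _, ha⟩
      · have hll : l' = l := by simpa using hl
        subst hll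
        exact Filter.mem_of_superset (hgl l') (fun a ha => Or.inr ⟨a, ha, rfl⟩)
      · exact absurd ha (by simp)
  let 𝒲 : Set (Set (X × Pt 𝒰)) := {W | (∃ (n : ℕ) (U : 𝒰 n), W = (U : Set X) ×ˢ N n U) ∨
    (∃ l, W = univ ×ˢ M l) ∨ (∃ a, W = univ ×ˢ {iso a})}
  have h𝒲 : OpenCover 𝒲 := by
    refine ⟨?_, ?_⟩
    · rintro W (⟨n, U, rfl⟩ | ⟨l, rfl⟩ | ⟨a, rfl⟩)
      · exact ((hcov n).1 _ U.2).prod (hN n U)
      · exact isOpen_univ.prod (hM l)
      · refine isOpen_univ.prod ?_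
        have := iso_open 𝒰 {a}
        rwa [image_singleton] at this
    · rw [eq_univ_iff_forall]
      rintro ⟨x, p⟩
      cases p with
      | iso a => exact ⟨_, Or.inr (Or.inr ⟨a, rfl⟩), trivial, rfl⟩
      | q n =>
        have hx : x ∈ ⋃₀ (𝒰 n) := by rw [(hcov n).2]; trivial
        obtain ⟨U, hU, hxU⟩ := hx
        exact ⟨_, Or.inl ⟨n, ⟨U, hU⟩, rfl⟩, hxU, mem_insert _ _⟩
      | lim l => exact ⟨_, Or.inr (Or.inl ⟨l, rfl⟩), trivial, mem_insert _ _⟩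
  have hprop : ∀ W : Set (X × Pt 𝒰), ∃ g b : Sel 𝒰, W ∈ 𝒲 → ∀ a : Sel 𝒰,
      (∃ n, g n ⊆ a n) → a ≠ b → ∀ x, (x, iso a) ∈ W → x ∈ Wa a := by
    intro W
    by_cases hW : W ∈ 𝒲
    · rcases hW with ⟨n, U, rfl⟩ | ⟨l, rfl⟩ | ⟨b, rfl⟩
      · refine ⟨fun _ => ∅, fun _ => ∅, fun _ a _ _ x hx => ?_⟩
        obtain ⟨hxU, hx2⟩ := hx
        rcases hx2 with hx2 | ⟨a', ha', hx2⟩
        · exact absurd hx2 (by simp)
        · have : a' = a := by simpa using hx2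
          subst this
          simp only [Wa, mem_iUnion, exists_prop]
          exact ⟨n, U, ha', hxU⟩
      · refine ⟨gl l, fun _ => ∅, fun _ a ha _ x hx => ?_⟩
        obtain ⟨_, hx2⟩ := hx
        rcases hx2 with hx2 | ⟨a', ha', hx2⟩
        · exact absurd hx2 (by simp)
        · have : a' = a := by simpa using hx2
          subst this
          obtain ⟨n, hn⟩ := ha
          exact absurd hn (ha' n)
      · refine ⟨fun _ => ∅, b, fun _ a _ hab x hx => ?_⟩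
        obtain ⟨_, hx2⟩ := hx
        have : a = b := by simpa using hx2
        exact absurd this hab
    · exact ⟨fun _ => ∅, fun _ => ∅, fun h => absurd h hW⟩
  choose g b hgb using hprop
  obtain ⟨𝒲', hsub, hcount, hdense⟩ := hYX 𝒲 h𝒲
  obtain ⟨w, hw⟩ := (hcount.insert (∅ : Set (X × Pt 𝒰))).exists_eq_range (insert_nonempty _ _)
  have hex : ∀ n, ∃ F : Finset (𝒰 n), (∀ i ≤ n, g (w i) n ⊆ F) ∧ F ≠ b (w n) n := by
    intro n
    let G : Finset (𝒰 n) := (Finset.range (n + 1)).biUnion (fun i => g (w i) n)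
    have hG : ∀ i ≤ n, g (w i) n ⊆ G := by
      intro i hi
      exact Finset.subset_biUnion_of_mem (fun i => g (w i) n)
        (Finset.mem_range.2 (Nat.lt_succ_of_le hi))
    by_cases h : G = b (w n) n
    · obtain ⟨U, hU⟩ := hinf n G
      refine ⟨insert U G, fun i hi => (hG i hi).trans (Finset.subset_insert _ _), ?_⟩
      rw [← h]
      intro hcon
      exact hU (hcon ▸ Finset.mem_insert_self U G)
    · exact ⟨G, hG, h⟩
  choose a ha hab using hex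
  have hkey : ∀ W ∈ 𝒲', ∀ x, (x, iso a) ∈ W → x ∈ Wa a := by
    intro W hW
    have : W ∈ range w := by rw [← hw]; exact mem_insert_of_mem _ hW
    obtain ⟨i, rfl⟩ := this
    refine hgb (w i) (hsub hW) a ⟨i, ha i i le_rfl⟩ ?_
    intro hcon
    exact hab i (by rw [← hcon])
  apply hWa a
  rw [dense_iff_inter_open]
  intro O hO hne
  have hopen : IsOpen (O ×ˢ {iso a} : Set (X × Pt 𝒰)) := by
    refine hO.prod ?_
    have := iso_open 𝒰 {a}
    rwa [image_singleton] at this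
  obtain ⟨x0, hx0⟩ := hne
  obtain ⟨⟨x, p⟩, ⟨hxO, hp⟩, W, hW, hxW⟩ := hdense.inter_open_nonempty _ hopen
    ⟨(x0, iso a), hx0, rfl⟩
  have hp' : p = iso a := hp
  subst hp'
  exact ⟨x, hxO, hkey W hW x hxW⟩

theorem wl_of_surj {Z Z' : Type u} [TopologicalSpace Z] [TopologicalSpace Z'] (f : Z → Z')
    (hf : Continuous f) (hs : Function.Surjective f) (hZ : WeaklyLindelof Z) :
    WeaklyLindelof Z' := by
  classical
  intro 𝒰 h𝒰
  obtain ⟨𝒱', hsub, hc, hd⟩ := hZ ((fun U => f ⁻¹' U) '' 𝒰) (by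
    refine ⟨?_, ?_⟩
    · rintro _ ⟨U, hU, rfl⟩
      exact (h𝒰.1 U hU).preimage hf
    · rw [eq_univ_iff_forall]
      intro z
      have : f z ∈ ⋃₀ 𝒰 := by rw [h𝒰.2]; trivial
      obtain ⟨U, hU, hz⟩ := this
      exact ⟨_, ⟨U, hU, rfl⟩, hz⟩)
  have hch : ∀ V : Set Z, ∃ U : Set Z', V ∈ 𝒱' → U ∈ 𝒰 ∧ f ⁻¹' U = V := by
    intro V
    by_cases hV : V ∈ 𝒱'
    · obtain ⟨U, hU, hUV⟩ := hsub hV
      exact ⟨U, fun _ => ⟨hU, hUV⟩⟩
    · exact ⟨∅, fun h => absurd h hV⟩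
  choose u hu using hch
  refine ⟨u '' 𝒱', ?_, hc.image u, ?_⟩
  · rintro _ ⟨V, hV, rfl⟩
    exact (hu V hV).1
  · rw [dense_iff_inter_open]
    intro O hO hne
    obtain ⟨y, hy⟩ := hne
    obtain ⟨z0, rfl⟩ := hs y
    obtain ⟨z, hzO, V, hV, hzV⟩ := hd.inter_open_nonempty _ (hO.preimage hf) ⟨z0, hy⟩
    refine ⟨f z, hzO, u V, ⟨V, hV, rfl⟩, ?_⟩
    have := (hu V hV).2
    rw [← this] at hzV
    exact hzV

theorem pow_productively (X : Type u) [TopologicalSpace X]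
    (hX : ProductivelyWeaklyLindelof X) (k : ℕ) :
    ProductivelyWeaklyLindelof (Fin k → X) := by
  induction k with
  | zero =>
    intro Y _ hY
    refine wl_of_surj (fun y : Y => ((fun i => i.elim0 : Fin 0 → X), y)) (by fun_prop) ?_ hY
    rintro ⟨x, y⟩
    exact ⟨y, Prod.ext (funext fun i => i.elim0) rfl⟩
  | succ k ih =>
    intro Y _ hY
    refine wl_of_surj (fun p : (Fin k → X) × (X × Y) =>
      ((Fin.cons p.2.1 p.1 : Fin (k + 1) → X), p.2.2)) ?_ ?_ (ih (X × Y) (hX Y hY))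
    · refine Continuous.prodMk ?_ (by fun_prop)
      refine continuous_pi (fun i => ?_)
      refine Fin.cases ?_ (fun j => ?_) i
      · simp only [Fin.cons_zero]; fun_prop
      · simp only [Fin.cons_succ]; fun_prop
    · rintro ⟨x, y⟩
      exact ⟨(Fin.tail x, (x 0, y)), by simp⟩

theorem power_step {X : Type u} [TopologicalSpace X] (k : ℕ) (hk : WeaklyMenger (Fin k → X))
    (𝒰 : ℕ → Set (Set X)) (h𝒰 : ∀ n, OpenCover (𝒰 n)) :
    ∃ ℱ, IsSelection 𝒰 ℱ ∧ ∀ G : Fin k → Set X, (∀ r, IsOpen (G r) ∧ (G r).Nonempty) →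
      ∃ i, ∀ r, (G r ∩ ⋃₀ ℱ i).Nonempty := by
  classical
  obtain ⟨𝒱', hsel, hd⟩ := hk (fun n => {W | ∃ U : Fin k → Set X, (∀ r, U r ∈ 𝒰 n) ∧
    W = Set.univ.pi U}) (by
    intro n
    refine ⟨?_, ?_⟩
    · rintro _ ⟨U, hU, rfl⟩
      exact isOpen_set_pi Set.finite_univ (fun r _ => (h𝒰 n).1 _ (hU r))
    · rw [eq_univ_iff_forall]
      intro x
      have : ∀ r, ∃ U ∈ 𝒰 n, x r ∈ U := by
        intro r
        have : x r ∈ ⋃₀ (𝒰 n) := by rw [(h𝒰 n).2]; trivial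
        exact this
      choose U hU hxU using this
      exact ⟨_, ⟨U, hU, rfl⟩, fun r _ => hxU r⟩)
  have hch : ∀ (n : ℕ) (W : Set (Fin k → X)), ∃ U : Fin k → Set X, W ∈ 𝒱' n →
      (∀ r, U r ∈ 𝒰 n) ∧ W = Set.univ.pi U := by
    intro n W
    by_cases hW : W ∈ 𝒱' n
    · obtain ⟨U, hU⟩ := (hsel n).1 hW
      exact ⟨U, fun _ => hU⟩
    · exact ⟨fun _ => ∅, fun h => absurd h hW⟩
  choose u hu using hch
  refine ⟨fun n => ⋃ W ∈ 𝒱' n, Set.range (u n W), ?_, ?_⟩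
  · intro n
    refine ⟨?_, (hsel n).2.biUnion (fun W _ => Set.finite_range _)⟩
    intro V hV
    simp only [mem_iUnion, exists_prop] at hV
    obtain ⟨W, hW, r, rfl⟩ := hV
    exact (hu n W hW).1 r
  · intro G hG
    have hop : IsOpen (Set.univ.pi G) := isOpen_set_pi Set.finite_univ (fun r _ => (hG r).1)
    have hne : (Set.univ.pi G).Nonempty := Set.univ_pi_nonempty_iff.2 (fun r => (hG r).2)
    obtain ⟨x, hxG, hx⟩ := hd.inter_open_nonempty _ hop hne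
    obtain ⟨i, W, hW, hxW⟩ := mem_iUnion.1 hx
    refine ⟨i, fun r => ⟨x r, hxG r trivial, u i W r, ?_, ?_⟩⟩
    · simp only [mem_iUnion, exists_prop]
      exact ⟨W, hW, r, rfl⟩
    · rw [(hu i W hW).2] at hxW
      exact hxW r trivial

theorem ws_of_powers {X : Type u} [TopologicalSpace X]
    (hpow : ∀ k, WeaklyMenger (Fin k → X)) : WeaklyScheepers X := by
  classical
  intro 𝒰 h𝒰
  have hstep : ∀ k j : ℕ, ∃ ℱ, IsSelection (fun i => 𝒰 (Nat.pair k (Nat.pair j i))) ℱ ∧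
      ∀ G : Fin k → Set X, (∀ r, IsOpen (G r) ∧ (G r).Nonempty) →
      ∃ i, ∀ r, (G r ∩ ⋃₀ ℱ i).Nonempty :=
    fun k j => power_step k (hpow k) _ (fun i => h𝒰 _)
  choose ℱ hsel hG using hstep
  refine ⟨fun n => ℱ n.unpair.1 n.unpair.2.unpair.1 n.unpair.2.unpair.2, ?_, ?_⟩
  · intro n
    have := hsel n.unpair.1 n.unpair.2.unpair.1 n.unpair.2.unpair.2
    simpa using this
  · intro 𝒢 h𝒢 hop
    let e := h𝒢.toFinset.equivFin
    have h1 : ∀ j : ℕ, ∃ i, ∀ r : Fin h𝒢.toFinset.card,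
        ((e.symm r : Set X) ∩ ⋃₀ ℱ h𝒢.toFinset.card j i).Nonempty := by
      intro j
      refine hG h𝒢.toFinset.card j (fun r => (e.symm r : Set X)) (fun r => ?_)
      exact hop _ (h𝒢.mem_toFinset.1 (e.symm r).2)
    choose i hi using h1
    have hinj : Function.Injective
        (fun j : ℕ => Nat.pair h𝒢.toFinset.card (Nat.pair j (i j))) := by
      intro a b hab
      simp only [Nat.pair_eq_pair] at hab
      exact hab.2.1
    refine (Set.infinite_range_of_injective hinj).mono ?_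
    rintro _ ⟨j, rfl⟩
    intro U hU
    have hU' : U ∈ h𝒢.toFinset := by simpa using hU
    have := hi j (e ⟨U, hU'⟩)
    simpa using this

/-- Every productively weakly Lindelof space is weakly Scheepers, and in particular weakly
Menger. -/
theorem result (X : Type u) [TopologicalSpace X] (hX : ProductivelyWeaklyLindelof X) :
    WeaklyScheepers X ∧ WeaklyMenger X :=
  ⟨ws_of_powers (fun k => wm_of_productively _ (pow_productively X hX k)),
    wm_of_productively X hX⟩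

end Pool.Agent.Results.MP_6a28f0_gt.ProductivelyWL
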